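import Pool.Agent.Helper95.SH.Bes

/-!
# Project RC, SHARP: alignments given by their inverse

`Θ` increasing, continuously differentiable, `Θ (x + 2π) = Θ x + 2π`; the alignment is `φ = inv Θ = Θ⁻¹`.
* `densI_inv`: `DensI (inv Θ) ρ` if `Θ' ≤ ρ`.
* `mo_inv`: the moment of `g` along `inv Θ` is the Fourier coefficient of the transported function `Θ' · (g ∘ Θ)`.
* `eM_inv`: all aligned moments are natural moments of one transported function.
* `fc_mode`: the transported modes, `Θ' e^{inΘ} = (1/(i n)) (e^{inΘ})'`.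
-/

open MeasureTheory Set Filter Topology

namespace Helper41.SH

open Helper49.LT hiding sg
open Helper87.RC (BM)
open Helper56.RC (fc)
open Helper95.SH (mo eM_mo)
open Helper95.RC (av)
open Pool.Agent.Helper20.RC (eM DensI)

/-- data of an inverse alignment -/
structure IA (Θ Θ' : ℝ → ℝ) : Prop where
  hd : ∀ x, HasDerivAt Θ (Θ' x) x
  hc : Continuous Θ'
  pos : ∀ x, 0 < Θ' x
  per : ∀ x, Θ (x + 2 * Real.pi) = Θ x + 2 * Real.pi

/-- the alignment -/
noncomputable def inv (Θ : ℝ → ℝ) : ℝ → ℝ := Function.invFun Θ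

variable {Θ Θ' Θ1 Θ1' Θ2 Θ2' : ℝ → ℝ}

theorem IA.mono (h : IA Θ Θ') : StrictMono Θ := strictMono_of_hasDerivAt_pos h.hd h.pos

theorem IA.cont (h : IA Θ Θ') : Continuous Θ := continuous_iff_continuousAt.2 fun x => (h.hd x).continuousAt

theorem IA.per_nat (h : IA Θ Θ') (x : ℝ) (n : ℕ) : Θ (x + n * (2 * Real.pi)) = Θ x + n * (2 * Real.pi) := by
  induction n with
  | zero => simp
  | succ n ih =>
    have h1 := h.per (x + n * (2 * Real.pi))
    rw [ih] at h1
    push_cast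
    rw [show x + ((n : ℝ) + 1) * (2 * Real.pi) = x + n * (2 * Real.pi) + 2 * Real.pi by ring, h1]
    ring

theorem IA.per_neg (h : IA Θ Θ') (x : ℝ) (n : ℕ) : Θ (x - n * (2 * Real.pi)) = Θ x - n * (2 * Real.pi) := by
  have h1 := h.per_nat (x - n * (2 * Real.pi)) n
  rw [sub_add_cancel] at h1
  linarith

theorem IA.surj (h : IA Θ Θ') : Function.Surjective Θ := by
  intro y
  obtain ⟨n, hn⟩ := exists_nat_gt ((|y| + |Θ 0|) / (2 * Real.pi))
  have hp : (0 : ℝ) < 2 * Real.pi := by positivity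
  rw [div_lt_iff₀ hp] at hn
  have h1 := h.per_nat 0 n
  have h2 := h.per_neg 0 n
  rw [zero_add] at h1
  rw [zero_sub] at h2
  have a1 := abs_le.1 (le_refl |y|)
  have a2 := abs_le.1 (le_refl |Θ 0|)
  have h3 : Θ (-(n * (2 * Real.pi))) ≤ y := by rw [h2]; linarith
  have h4 : y ≤ Θ (n * (2 * Real.pi)) := by rw [h1]; linarith
  have h5 : -((n : ℝ) * (2 * Real.pi)) ≤ n * (2 * Real.pi) := by
    have : 0 ≤ (n : ℝ) * (2 * Real.pi) := by positivity
    linarith
  obtain ⟨x, _, hx⟩ := intermediate_value_Icc h5 h.cont.continuousOn ⟨h3, h4⟩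
  exact ⟨x, hx⟩

theorem IA.left (h : IA Θ Θ') (x : ℝ) : inv Θ (Θ x) = x := Function.leftInverse_invFun h.mono.injective x

theorem IA.right (h : IA Θ Θ') (y : ℝ) : Θ (inv Θ y) = y := Function.rightInverse_invFun h.surj y

theorem IA.inv_per (h : IA Θ Θ') (y : ℝ) : inv Θ (y + 2 * Real.pi) = inv Θ y + 2 * Real.pi := by
  apply h.mono.injective
  rw [h.right, h.per, h.right]

theorem IA.inv_cont (h : IA Θ Θ') : Continuous (inv Θ) := by
  have h1 : inv Θ = (StrictMono.orderIsoOfSurjective Θ h.mono h.surj).symm := by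
    funext y
    apply h.mono.injective
    rw [h.right]
    have h2 : Θ ((StrictMono.orderIsoOfSurjective Θ h.mono h.surj).symm y) =
        (StrictMono.orderIsoOfSurjective Θ h.mono h.surj) ((StrictMono.orderIsoOfSurjective Θ h.mono h.surj).symm y) := rfl
    rw [h2, OrderIso.apply_symm_apply]
  rw [h1]
  exact OrderIso.continuous _

theorem IA.inv_meas (h : IA Θ Θ') : Measurable (inv Θ) := h.inv_cont.measurable

theorem IA.inv_add (h : IA Θ Θ') (hp : ∀ x, Θ (x + Real.pi) = Θ x + Real.pi) (y : ℝ) :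
    inv Θ (y + Real.pi) = inv Θ y + Real.pi := by
  apply h.mono.injective
  rw [h.right, hp, h.right]

/-- change of variables, values in a Banach space -/
theorem IA.cov (h : IA Θ Θ') {E : Type*} [NormedAddCommGroup E] [NormedSpace ℝ E] {F : ℝ → E}
    (hF : ∀ x, F (x + 2 * Real.pi) = F x) :
    ∫ x in (0 : ℝ)..(2 * Real.pi), Θ' x • F (Θ x) = ∫ θ in (0 : ℝ)..(2 * Real.pi), F θ := by
  have h2 : (0 : ℝ) ≤ 2 * Real.pi := by positivity
  have hmono := h.mono
  have hc := h.cont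
  have himg : Θ '' Ioc 0 (2 * Real.pi) = Ioc (Θ 0) (Θ (2 * Real.pi)) := by
    apply Set.Subset.antisymm
    · rintro _ ⟨x, hx, rfl⟩
      exact ⟨hmono hx.1, hmono.monotone hx.2⟩
    · intro y hy
      obtain ⟨x, hx, rfl⟩ := intermediate_value_Icc h2 hc.continuousOn ⟨hy.1.le, hy.2⟩
      refine ⟨x, ⟨?_, hx.2⟩, rfl⟩
      exact hmono.lt_iff_lt.1 hy.1
  have h' := integral_image_eq_integral_abs_deriv_smul (measurableSet_Ioc (a := (0 : ℝ)) (b := 2 * Real.pi))
    (fun x _ => (h.hd x).hasDerivWithinAt) hmono.injective.injOn F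
  rw [himg] at h'
  have e1 : ∫ x in Ioc (Θ 0) (Θ (2 * Real.pi)), F x = ∫ x in (0 : ℝ)..(2 * Real.pi), F x := by
    have hle : Θ 0 ≤ Θ (2 * Real.pi) := hmono.monotone h2
    rw [← intervalIntegral.integral_of_le hle]
    have hq := h.per 0
    rw [zero_add] at hq
    rw [hq]
    have hper : Function.Periodic F (2 * Real.pi) := hF
    have := hper.intervalIntegral_add_eq (Θ 0) 0
    rw [zero_add] at this
    exact this
  rw [e1] at h'
  rw [h', intervalIntegral.integral_of_le h2]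
  refine setIntegral_congr_fun measurableSet_Ioc fun x _ => ?_
  show Θ' x • F (Θ x) = |Θ' x| • F (Θ x)
  rw [abs_of_pos (h.pos x)]

/-- change of variables, with the alignment in the integrand -/
theorem IA.cov2 (h : IA Θ Θ') {E : Type*} [NormedAddCommGroup E] [NormedSpace ℝ E] {G : ℝ → ℝ → E}
    (hG : ∀ θ x, G (θ + 2 * Real.pi) (x + 2 * Real.pi) = G θ x) :
    ∫ θ in (0 : ℝ)..(2 * Real.pi), G θ (inv Θ θ) = ∫ x in (0 : ℝ)..(2 * Real.pi), Θ' x • G (Θ x) x := by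
  rw [← h.cov (F := fun θ => G θ (inv Θ θ)) (fun x => by simp only [h.inv_per, hG])]
  simp only [h.left]

/-- THE DENSITY of an inverse alignment is `Θ'` -/
theorem IA.densI (h : IA Θ Θ') {ρ : ℝ} (hρ : ∀ x, Θ' x ≤ ρ) : DensI (inv Θ) ρ := by
  intro F mF pF bF perF
  obtain ⟨C, hC⟩ := bF
  have h2 : (0 : ℝ) ≤ 2 * Real.pi := by positivity
  rw [h.cov2 (G := fun _ x => F x) (fun _ x => perF x), ← intervalIntegral.integral_const_mul]
  have hFi : IntervalIntegrable F volume 0 (2 * Real.pi) := by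
    refine Pool.Agent.Helper20.RC.intg_real (C := C) mF (fun t => ?_) _ _
    rw [abs_of_nonneg (pF _)]; exact hC _
  refine intervalIntegral.integral_mono_on h2 (hFi.continuousOn_smul h.hc.continuousOn) (hFi.const_mul _) fun x _ => ?_
  rw [smul_eq_mul]
  exact mul_le_mul_of_nonneg_right (hρ x) (pF x)

/-- the transported function -/
noncomputable def trp (Θ Θ' : ℝ → ℝ) (g : ℝ → ℂ) (x : ℝ) : ℂ := (Θ' x : ℂ) * g (Θ x)

/-- the moments along `inv Θ` are Fourier coefficients -/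
theorem IA.mo_inv (h : IA Θ Θ') {g : ℝ → ℂ} (hg : ∀ x, g (x + 2 * Real.pi) = g x) (n : ℤ) :
    mo (inv Θ) g (n : ℝ) = fc (trp Θ Θ' g) n := by
  unfold mo av fc trp
  congr 1
  rw [h.cov2 (G := fun θ x => g θ * ee (-((n : ℝ) * x))) (fun θ x => by
    rw [hg, show -((n : ℝ) * (x + 2 * Real.pi)) = ((-n : ℤ) : ℝ) * (x + 2 * Real.pi) by push_cast; ring,
      ee_int (-n) x, show ((-n : ℤ) : ℝ) * x = -((n : ℝ) * x) by push_cast; ring])]
  refine intervalIntegral.integral_congr fun x _ => ?_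
  simp only [Complex.real_smul]
  ring

/-- ALL aligned moments are natural moments of one function -/
theorem eM_inv (h1 : IA Θ1 Θ1') (h2 : IA Θ2 Θ2') {g1 g2 : ℝ → ℂ} {D1 D2 : ℝ} (b1 : BM g1 D1) (b2 : BM g2 D2)
    (p1 : ∀ x, g1 (x + 2 * Real.pi) = g1 x) (p2 : ∀ x, g2 (x + 2 * Real.pi) = g2 x) (l : ℤ) :
    eM g1 g2 (inv Θ1) (inv Θ2) l =
      (1 - l) / 2 * (fc (trp Θ1 Θ1' g1) (l + 1) + fc (trp Θ2 Θ2' g2) (l + 1))
      + (1 + l) / 2 * (starRingEnd ℂ) (fc (trp Θ1 Θ1' g1) (1 - l) + fc (trp Θ2 Θ2' g2) (1 - l)) := by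
  have hc : ∀ {Θ Θ' : ℝ → ℝ} (_ : IA Θ Θ') (g : ℝ → ℂ) (_ : ∀ x, g (x + 2 * Real.pi) = g x),
      mo (inv Θ) (fun t => (starRingEnd ℂ) (g t)) ((l : ℝ) - 1) = (starRingEnd ℂ) (fc (trp Θ Θ' g) (1 - l)) := by
    intro Θ Θ' h g p
    have e1 := h.mo_inv (g := fun t => (starRingEnd ℂ) (g t)) (fun x => by rw [p]) (l - 1)
    push_cast at e1
    rw [e1]
    have e2 : trp Θ Θ' (fun t => (starRingEnd ℂ) (g t)) = fun t => (starRingEnd ℂ) (trp Θ Θ' g t) := by
      funext x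
      unfold trp
      rw [map_mul, Complex.conj_ofReal]
    rw [e2, Helper87.RC.fc_conj, neg_sub]
  have hd : ∀ {Θ Θ' : ℝ → ℝ} (_ : IA Θ Θ') (g : ℝ → ℂ) (_ : ∀ x, g (x + 2 * Real.pi) = g x),
      mo (inv Θ) g ((l : ℝ) + 1) = fc (trp Θ Θ' g) (l + 1) := by
    intro Θ Θ' h g p
    have e1 := h.mo_inv p (l + 1)
    push_cast at e1
    exact e1
  rw [eM_mo b1 b2 h1.inv_meas h2.inv_meas (l : ℝ), hc h1 g1 p1, hc h2 g2 p2, hd h1 g1 p1, hd h2 g2 p2, map_add]
  push_cast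
  ring

/-- the transported modes -/
theorem IA.fc_mode (h : IA Θ Θ') {m : ℤ} (hm : m ≠ 0) (n : ℤ) :
    fc (trp Θ Θ' (fun θ => ee ((m : ℝ) * θ))) n = (n / m : ℂ) * fc (fun x => ee ((m : ℝ) * Θ x)) n := by
  have hmc : (m : ℂ) ≠ 0 := by exact_mod_cast hm
  have hI := Complex.I_ne_zero
  have hd : ∀ x, HasDerivAt (fun x => ee ((m : ℝ) * Θ x)) (Complex.I * m * ((Θ' x : ℂ) * ee ((m : ℝ) * Θ x))) x := by
    intro x
    unfold ee
    have h1 : HasDerivAt (fun x => (((m : ℝ) * Θ x : ℝ) : ℂ) * Complex.I) ((((m : ℝ) * Θ' x : ℝ) : ℂ) * Complex.I) x :=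
      (((h.hd x).const_mul (m : ℝ)).ofReal_comp).mul_const Complex.I
    have h2 := h1.cexp
    refine h2.congr_deriv ?_
    push_cast
    ring
  have he : ∀ x : ℝ, HasDerivAt (fun x : ℝ => ee (-((n : ℝ) * x))) (-(Complex.I * n) * ee (-((n : ℝ) * x))) x := by
    intro x
    unfold ee
    have h1 : HasDerivAt (fun x : ℝ => ((-((n : ℝ) * x) : ℝ) : ℂ) * Complex.I) (((-((n : ℝ) * 1) : ℝ) : ℂ) * Complex.I) x :=
      ((((hasDerivAt_id x).const_mul (n : ℝ)).neg).ofReal_comp).mul_const Complex.I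
    have h2 := h1.cexp
    refine h2.congr_deriv ?_
    push_cast
    ring
  have hce : Continuous fun x : ℝ => ee (-((n : ℝ) * x)) := continuous_iff_continuousAt.2 fun x => (he x).continuousAt
  have hcm : Continuous fun x : ℝ => ee ((m : ℝ) * Θ x) := continuous_iff_continuousAt.2 fun x => (hd x).continuousAt
  have hcT : Continuous fun x : ℝ => (Θ' x : ℂ) := Complex.continuous_ofReal.comp h.hc
  have h3 := intervalIntegral.integral_mul_deriv_eq_deriv_mul (a := 0) (b := 2 * Real.pi)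
    (fun x _ => he x) (fun x _ => hd x)
    ((continuous_const.mul hce).intervalIntegrable _ _)
    ((continuous_const.mul (hcT.mul hcm)).intervalIntegrable _ _)
  have h4 : ee (-((n : ℝ) * (2 * Real.pi))) * ee ((m : ℝ) * Θ (2 * Real.pi)) - ee (-((n : ℝ) * 0)) * ee ((m : ℝ) * Θ 0) = 0 := by
    have e1 := h.per 0
    rw [zero_add] at e1
    rw [e1, ee_int m]
    have e2 : ee (-((n : ℝ) * (2 * Real.pi))) = ee (-((n : ℝ) * 0)) := by
      have := ee_int (-n) 0
      rw [zero_add] at this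
      push_cast at this
      rw [show -((n : ℝ) * (2 * Real.pi)) = -(n : ℝ) * (2 * Real.pi) by ring, this]
      ring_nf
    rw [e2]; ring
  rw [h4, zero_sub] at h3
  unfold fc trp
  have e5 : ∫ x in (0 : ℝ)..(2 * Real.pi), ee (-((n : ℝ) * x)) * (Complex.I * m * ((Θ' x : ℂ) * ee ((m : ℝ) * Θ x))) =
      Complex.I * m * ∫ x in (0 : ℝ)..(2 * Real.pi), (Θ' x : ℂ) * ee ((m : ℝ) * Θ x) * ee (-((n : ℝ) * x)) := by
    rw [← intervalIntegral.integral_const_mul]
    refine intervalIntegral.integral_congr fun x _ => ?_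
    show _ = _
    ring
  have e6 : ∫ x in (0 : ℝ)..(2 * Real.pi), -(Complex.I * n) * ee (-((n : ℝ) * x)) * ee ((m : ℝ) * Θ x) =
      -(Complex.I * n) * ∫ x in (0 : ℝ)..(2 * Real.pi), ee ((m : ℝ) * Θ x) * ee (-((n : ℝ) * x)) := by
    rw [← intervalIntegral.integral_const_mul]
    refine intervalIntegral.integral_congr fun x _ => ?_
    show _ = _
    ring
  rw [e5, e6] at h3
  have h6 : ∫ x in (0 : ℝ)..(2 * Real.pi), (Θ' x : ℂ) * ee ((m : ℝ) * Θ x) * ee (-((n : ℝ) * x)) =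
      (n / m : ℂ) * ∫ x in (0 : ℝ)..(2 * Real.pi), ee ((m : ℝ) * Θ x) * ee (-((n : ℝ) * x)) := by
    have h7 : Complex.I * m * ((∫ x in (0 : ℝ)..(2 * Real.pi), (Θ' x : ℂ) * ee ((m : ℝ) * Θ x) * ee (-((n : ℝ) * x)))
        - (n / m : ℂ) * ∫ x in (0 : ℝ)..(2 * Real.pi), ee ((m : ℝ) * Θ x) * ee (-((n : ℝ) * x))) = 0 := by
      rw [mul_sub, h3]
      field_simp
      ring
    have h8 := (mul_eq_zero.1 h7).resolve_left (mul_ne_zero hI hmc)
    linear_combination h8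
  rw [h6]
  ring

end Helper41.SH
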