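import Pool.Agent.Helper61.RC.QC6

/-!
# Project SHARP, zone I, (Q): the chord of the five nodes and the deviation of `dI`

On `0 ≤ A`, `A + 8/5 ‖B‖ ≤ 1/12` the number `dI A B = 17/20 A² - 2/5 ‖B‖²` differs by at most `63/100000` from the
piecewise linear function of `A` through the five nodes `(k_j, d_j)` of the head certificates.
-/

set_option autoImplicit false

namespace Pool.Agent.Helper41.SH.DevI

open Pool.Agent.Helper33.SH (dI)

/-- upper bound of `‖B‖²` -/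
theorem Bsq {A : ℝ} {B : ℂ} (h : A + 8 / 5 * ‖B‖ ≤ 1 / 12) :
    0 ≤ ‖B‖ ^ 2 ∧ ‖B‖ ^ 2 ≤ 25 / 64 * (1 / 12 - A) ^ 2 := by
  have h0 := norm_nonneg B
  refine ⟨by positivity, ?_⟩
  have h1 : ‖B‖ ≤ 5 / 8 * (1 / 12 - A) := by linarith
  calc ‖B‖ ^ 2 ≤ (5 / 8 * (1 / 12 - A)) ^ 2 := pow_le_pow_left₀ h0 h1 2
    _ = _ := by ring

/-- the chord of two nodes: the point of the chord over `A` and the deviation -/
theorem seg {Q : ℝ → ℝ → Prop} {d₀ k₀ d₁ k₁ : ℝ} (hk : k₁ = k₀ + 1 / 48)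
    (I : ∀ t : ℝ, 0 ≤ t → t ≤ 1 → Q ((1 - t) * d₀ + t * d₁) ((1 - t) * k₀ + t * k₁))
    {A : ℝ} {B : ℂ} (h0 : k₀ ≤ A) (h1 : A ≤ k₁)
    (hup : ∀ t : ℝ, 0 ≤ t → t ≤ 1 → A = k₀ + t / 48 → |dI A B - ((1 - t) * d₀ + t * d₁)| ≤ 63 / 100000) :
    ∃ d' : ℝ, Q d' A ∧ |dI A B - d'| ≤ 63 / 100000 := by
  have ht : A = (1 - 48 * (A - k₀)) * k₀ + 48 * (A - k₀) * k₁ := by
    rw [hk]
    ring
  refine ⟨(1 - 48 * (A - k₀)) * d₀ + 48 * (A - k₀) * d₁, ?_,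
    hup _ (by linarith) (by linarith) (by ring)⟩
  have h2 := I (48 * (A - k₀)) (by linarith) (by linarith)
  rwa [← ht] at h2

/-- THE CHORD and THE DEVIATION: what holds on the four chords holds at a point `(d', A)` near `(dI A B, A)` -/
theorem chord {Q : ℝ → ℝ → Prop}
    (I0 : ∀ t : ℝ, 0 ≤ t → t ≤ 1 → Q ((1 - t) * (-27 / 50000) + t * (3 / 50000)) ((1 - t) * 0 + t * (1 / 48)))
    (I1 : ∀ t : ℝ, 0 ≤ t → t ≤ 1 → Q ((1 - t) * (3 / 50000) + t * (67 / 50000)) ((1 - t) * (1 / 48) + t * (1 / 24)))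
    (I2 : ∀ t : ℝ, 0 ≤ t → t ≤ 1 → Q ((1 - t) * (67 / 50000) + t * (329 / 100000)) ((1 - t) * (1 / 24) + t * (1 / 16)))
    (I3 : ∀ t : ℝ, 0 ≤ t → t ≤ 1 → Q ((1 - t) * (329 / 100000) + t * (59 / 10000)) ((1 - t) * (1 / 16) + t * (1 / 12)))
    {A : ℝ} {B : ℂ} (hA : 0 ≤ A) (h : A + 8 / 5 * ‖B‖ ≤ 1 / 12) :
    ∃ d' : ℝ, Q d' A ∧ |dI A B - d'| ≤ 63 / 100000 := by
  obtain ⟨b0, b1⟩ := Bsq h
  have hA1 : A ≤ 1 / 12 := by linarith [norm_nonneg B]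
  rcases le_total A (1 / 48) with c1 | c1
  · refine seg (by norm_num) I0 hA c1 fun t t0 t1 hAt => ?_
    unfold dI
    rw [abs_le]
    constructor <;> nlinarith [mul_nonneg t0 (sub_nonneg.2 t1)]
  rcases le_total A (1 / 24) with c2 | c2
  · refine seg (by norm_num) I1 c1 c2 fun t t0 t1 hAt => ?_
    unfold dI
    rw [abs_le]
    constructor <;> nlinarith [mul_nonneg t0 (sub_nonneg.2 t1)]
  rcases le_total A (1 / 16) with c3 | c3
  · refine seg (by norm_num) I2 c2 c3 fun t t0 t1 hAt => ?_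
    unfold dI
    rw [abs_le]
    constructor <;> nlinarith [mul_nonneg t0 (sub_nonneg.2 t1)]
  · refine seg (by norm_num) I3 c3 hA1 fun t t0 t1 hAt => ?_
    unfold dI
    rw [abs_le]
    constructor <;> nlinarith [mul_nonneg t0 (sub_nonneg.2 t1)]

/-- the distances of neighbouring nodes are at most `47/2000` -/
theorem dist0 : |(-27 / 50000 : ℝ) - 3 / 50000| + |(0 : ℝ) - 1 / 48| ≤ 47 / 2000 := by
  rw [abs_of_nonpos (by norm_num), abs_of_nonpos (by norm_num)]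
  norm_num

theorem dist1 : |(3 / 50000 : ℝ) - 67 / 50000| + |(1 / 48 : ℝ) - 1 / 24| ≤ 47 / 2000 := by
  rw [abs_of_nonpos (by norm_num), abs_of_nonpos (by norm_num)]
  norm_num

theorem dist2 : |(67 / 50000 : ℝ) - 329 / 100000| + |(1 / 24 : ℝ) - 1 / 16| ≤ 47 / 2000 := by
  rw [abs_of_nonpos (by norm_num), abs_of_nonpos (by norm_num)]
  norm_num

theorem dist3 : |(329 / 100000 : ℝ) - 59 / 10000| + |(1 / 16 : ℝ) - 1 / 12| ≤ 47 / 2000 := by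
  rw [abs_of_nonpos (by norm_num), abs_of_nonpos (by norm_num)]
  norm_num

end Pool.Agent.Helper41.SH.DevI
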